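import Pool.Agent.H99.Trap.A

/-!
# Module C: the average over the traps of the survival weight of a fixed path
-/

namespace Pool.Agent.H99.Trap

open MeasureTheory ProbabilityTheory Filter
open scoped ENNReal NNReal Topology

namespace C

/-! ### The function `expNeg` -/

theorem expNeg_eq (a : ℝ≥0∞) : expNeg a = EReal.exp (-(a : EReal)) := by
  unfold expNeg
  split_ifs with h
  · subst h; simp
  · lift a to ℝ≥0 using h
    have h1 : (((a : ℝ≥0∞) : EReal)) = ((a : ℝ) : EReal) := rfl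
    rw [h1, ← EReal.coe_neg, EReal.exp_coe]
    simp

theorem continuous_expNeg : Continuous expNeg := by
  have h : expNeg = fun a : ℝ≥0∞ => EReal.exp (-(a : EReal)) := funext expNeg_eq
  rw [h]
  exact ENNReal.continuous_exp.comp (continuous_neg.comp continuous_coe_ennreal_ereal)

theorem expNeg_zero : expNeg 0 = 1 := by
  simp [expNeg]

theorem expNeg_add (a b : ℝ≥0∞) : expNeg (a + b) = expNeg a * expNeg b := by
  unfold expNeg
  by_cases ha : a = ∞
  · simp [ha]
  by_cases hb : b = ∞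
  · simp [hb]
  rw [if_neg ha, if_neg hb, if_neg (by simp [ha, hb]), ENNReal.toReal_add ha hb,
    ← ENNReal.ofReal_mul (Real.exp_pos _).le, ← Real.exp_add]
  congr 2
  ring

theorem expNeg_sum {ι : Type*} (s : Finset ι) (f : ι → ℝ≥0∞) :
    expNeg (∑ i ∈ s, f i) = ∏ i ∈ s, expNeg (f i) := by
  classical
  induction s using Finset.induction_on with
  | empty => simp [expNeg_zero]
  | insert a s has ih => rw [Finset.sum_insert has, Finset.prod_insert has, expNeg_add, ih]

theorem expNeg_le_one (a : ℝ≥0∞) : expNeg a ≤ 1 := by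
  unfold expNeg
  split_ifs with h
  · exact zero_le
  · rw [← ENNReal.ofReal_one]
    refine ENNReal.ofReal_le_ofReal ?_
    rw [Real.exp_le_one_iff]
    have := ENNReal.toReal_nonneg (a := a)
    linarith

theorem expNeg_ofReal {r : ℝ} (hr : 0 ≤ r) :
    expNeg (ENNReal.ofReal r) = ENNReal.ofReal (Real.exp (-r)) := by
  unfold expNeg
  rw [if_neg ENNReal.ofReal_ne_top, ENNReal.toReal_ofReal hr]

/-! ### Occupation times -/

variable {d : ℕ}

theorem meas_set (x : ℝ → Fin d → ℤ) (hx : Measurable x) (y : Fin d → ℤ) :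
    MeasurableSet {p : Traj d × ℝ | y + pos p.1 p.2 = x p.2} := by
  have h1 : Measurable (fun p : Traj d × ℝ => y + pos p.1 p.2) :=
    (measurable_pos d).const_add y
  have h2 : Measurable (fun p : Traj d × ℝ => x p.2) := hx.comp measurable_snd
  exact measurableSet_eq_fun h1 h2

theorem meas_ind (x : ℝ → Fin d → ℤ) (hx : Measurable x) (y : Fin d → ℤ) :
    Measurable (fun p : Traj d × ℝ => if y + pos p.1 p.2 = x p.2 then (1 : ℝ≥0∞) else 0) :=
  Measurable.ite (meas_set x hx y) measurable_const measurable_const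

theorem meas_ind' (x : ℝ → Fin d → ℤ) (hx : Measurable x) (y : Fin d → ℤ) :
    Measurable (fun p : Traj d × ℝ => if y + pos p.1 p.2 = x p.2 then (1 : ℝ) else 0) :=
  Measurable.ite (meas_set x hx y) measurable_const measurable_const

theorem lint_ind {t : ℝ} (ht : 0 < t) (x : ℝ → Fin d → ℤ) (hx : Measurable x) (y : Fin d → ℤ)
    (w : Traj d) :
    ∫⁻ s in Set.Icc 0 t, (if y + pos w s = x s then (1 : ℝ≥0∞) else 0) =
      ENNReal.ofReal (occ x y w t) := by
  have hm : Measurable (fun s : ℝ => if y + pos w s = x s then (1 : ℝ) else 0) :=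
    (meas_ind' x hx y).comp (measurable_const.prodMk measurable_id)
  unfold occ
  rw [intervalIntegral.integral_of_le ht.le, Measure.restrict_congr_set Ioc_ae_eq_Icc,
    ofReal_integral_eq_lintegral_ofReal]
  · refine lintegral_congr fun s => ?_
    split_ifs <;> simp
  · refine Integrable.of_bound hm.aestronglyMeasurable 1 (ae_of_all _ fun s => ?_)
    split_ifs <;> simp
  · refine ae_of_all _ fun s => ?_
    show (0 : ℝ) ≤ if y + pos w s = x s then (1 : ℝ) else 0
    split_ifs <;> simp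

theorem occ_nonneg {t : ℝ} (ht : 0 < t) (x : ℝ → Fin d → ℤ) (y : Fin d → ℤ) (w : Traj d) :
    0 ≤ occ x y w t := by
  unfold occ
  refine intervalIntegral.integral_nonneg ht.le fun s _ => ?_
  split_ifs <;> simp

theorem meas_ofReal_occ {t : ℝ} (ht : 0 < t) (x : ℝ → Fin d → ℤ) (hx : Measurable x)
    (y : Fin d → ℤ) : Measurable fun w : Traj d => ENNReal.ofReal (occ x y w t) := by
  have h : (fun w : Traj d => ENNReal.ofReal (occ x y w t)) = fun w =>
      ∫⁻ s in Set.Icc 0 t, (if y + pos w s = x s then (1 : ℝ≥0∞) else 0) :=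
    funext fun w => (lint_ind ht x hx y w).symm
  rw [h]
  exact (meas_ind x hx y).lintegral_prod_right'

theorem meas_occ {t : ℝ} (ht : 0 < t) (x : ℝ → Fin d → ℤ) (hx : Measurable x)
    (y : Fin d → ℤ) : Measurable fun w : Traj d => occ x y w t := by
  have h : (fun w : Traj d => occ x y w t) = fun w => (ENNReal.ofReal (occ x y w t)).toReal :=
    funext fun w => (ENNReal.toReal_ofReal (occ_nonneg ht x y w)).symm
  rw [h]
  exact (meas_ofReal_occ ht x hx y).ennreal_toReal

theorem lint_xi {t : ℝ} (ht : 0 < t) (x : ℝ → Fin d → ℤ) (hx : Measurable x) (c : TrapConf d) :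
    ∫⁻ s in Set.Icc 0 t, xi c s (x s) =
      ∑' y : Fin d → ℤ, ∑ j ∈ Finset.range (c.1 y), ENNReal.ofReal (occ x y (c.2 (y, j)) t) := by
  have hm : ∀ (y : Fin d → ℤ) (w : Traj d),
      Measurable fun s : ℝ => if y + pos w s = x s then (1 : ℝ≥0∞) else 0 := fun y w =>
    (meas_ind x hx y).comp (measurable_const.prodMk measurable_id)
  unfold xi
  rw [lintegral_tsum]
  · refine tsum_congr fun y => ?_
    rw [lintegral_finsetSum]
    · exact Finset.sum_congr rfl fun j _ => lint_ind ht x hx y _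
    · exact fun j _ => hm y _
  · exact fun y => (Finset.measurable_fun_sum _ fun j _ => hm y _).aemeasurable

/-- The weight of one trap. -/
noncomputable def g (γ t : ℝ) (x : ℝ → Fin d → ℤ) (y : Fin d → ℤ) (w : Traj d) : ℝ≥0∞ :=
  ENNReal.ofReal (Real.exp (-(γ * occ x y w t)))

theorem meas_g {γ t : ℝ} (ht : 0 < t) (x : ℝ → Fin d → ℤ) (hx : Measurable x)
    (y : Fin d → ℤ) : Measurable (g γ t x y) := by
  have := meas_occ ht x hx y
  unfold g
  fun_prop

theorem g_eq {γ t : ℝ} (hγ : 0 < γ) (ht : 0 < t) (x : ℝ → Fin d → ℤ) (y : Fin d → ℤ)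
    (w : Traj d) : expNeg (ENNReal.ofReal γ * ENNReal.ofReal (occ x y w t)) = g γ t x y w := by
  rw [← ENNReal.ofReal_mul hγ.le, expNeg_ofReal (mul_nonneg hγ.le (occ_nonneg ht x y w))]
  rfl

/-- The partial products of the weights. -/
noncomputable def pp (γ t : ℝ) (x : ℝ → Fin d → ℤ) (F : Finset (Fin d → ℤ)) (c : TrapConf d) :
    ℝ≥0∞ := ∏ y ∈ F, ∏ j ∈ Finset.range (c.1 y), g γ t x y (c.2 (y, j))

theorem tendsto_pp {γ t : ℝ} (hγ : 0 < γ) (ht : 0 < t) (x : ℝ → Fin d → ℤ) (hx : Measurable x)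
    (c : TrapConf d) : Tendsto (fun F => pp γ t x F c) atTop (𝓝 (surv γ t x c)) := by
  unfold surv
  rw [lint_xi ht x hx, ← ENNReal.tsum_mul_left]
  have h := (continuous_expNeg.tendsto _).comp (ENNReal.summable (f := fun y : Fin d → ℤ =>
    ENNReal.ofReal γ * ∑ j ∈ Finset.range (c.1 y),
      ENNReal.ofReal (occ x y (c.2 (y, j)) t))).hasSum
  refine h.congr fun F => ?_
  simp only [Function.comp]
  rw [expNeg_sum]
  unfold pp
  refine Finset.prod_congr rfl fun y _ => ?_
  rw [Finset.mul_sum, expNeg_sum]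
  exact Finset.prod_congr rfl fun j _ => g_eq hγ ht x y _

theorem pp_le_one {γ t : ℝ} (hγ : 0 < γ) (ht : 0 < t) (x : ℝ → Fin d → ℤ)
    (F : Finset (Fin d → ℤ)) (c : TrapConf d) : pp γ t x F c ≤ 1 := by
  unfold pp
  refine Finset.prod_le_one' fun y _ => Finset.prod_le_one' fun j _ => ?_
  rw [← g_eq hγ ht]
  exact expNeg_le_one _

theorem meas_gp {γ t : ℝ} (ht : 0 < t) (x : ℝ → Fin d → ℤ) (hx : Measurable x)
    (y : Fin d → ℤ) (n : ℕ) : Measurable (fun w : (Fin d → ℤ) × ℕ → Traj d =>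
      ∏ j ∈ Finset.range n, g γ t x y (w (y, j))) := by
  have h : ∀ j : ℕ, Measurable (fun w : (Fin d → ℤ) × ℕ → Traj d => g γ t x y (w (y, j))) :=
    fun j => (meas_g ht x hx y).comp (measurable_pi_apply (y, j))
  exact Finset.measurable_fun_prod (M := ℝ≥0∞) (Finset.range n) fun j _ => h j

theorem meas_gq {γ t : ℝ} (ht : 0 < t) (x : ℝ → Fin d → ℤ) (hx : Measurable x)
    (y : Fin d → ℤ) : Measurable (fun p : ((Fin d → ℤ) × ℕ → Traj d) × ℕ =>
      ∏ j ∈ Finset.range p.2, g γ t x y (p.1 (y, j))) :=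
  measurable_from_prod_countable_left
    (f := fun p : ((Fin d → ℤ) × ℕ → Traj d) × ℕ =>
      ∏ j ∈ Finset.range p.2, g γ t x y (p.1 (y, j))) fun n => meas_gp ht x hx y n

theorem meas_gr {γ t : ℝ} (ht : 0 < t) (x : ℝ → Fin d → ℤ) (hx : Measurable x)
    (y : Fin d → ℤ) : Measurable (fun c : TrapConf d =>
      ∏ j ∈ Finset.range (c.1 y), g γ t x y (c.2 (y, j))) := by
  have h0 : Measurable (fun n : (Fin d → ℤ) → ℕ => n y) := measurable_pi_apply y
  have h1 : Measurable (fun c : TrapConf d => c.1 y) := h0.comp measurable_fst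
  have h2 : Measurable (fun c : TrapConf d => (c.2, c.1 y)) := measurable_snd.prodMk h1
  have h3 := (meas_gq ht x hx y (γ := γ)).comp h2
  exact h3

theorem meas_pp {γ t : ℝ} (ht : 0 < t) (x : ℝ → Fin d → ℤ) (hx : Measurable x)
    (F : Finset (Fin d → ℤ)) : Measurable (pp γ t x F) :=
  Finset.measurable_fun_prod (M := ℝ≥0∞) F fun y _ => meas_gr ht x hx y

/-! ### Products over independent coordinates -/

theorem lint_prod {ι : Type*} {Ω : ι → Type*} [∀ i, MeasurableSpace (Ω i)]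
    (P : (i : ι) → Measure (Ω i)) [∀ i, IsProbabilityMeasure (P i)] (h : (i : ι) → Ω i → ℝ≥0∞)
    (hh : ∀ i, Measurable (h i)) (s : Finset ι) :
    ∫⁻ w, ∏ i ∈ s, h i (w i) ∂(Measure.infinitePi P) = ∏ i ∈ s, ∫⁻ v, h i v ∂(P i) := by
  have h1 := lintegral_prod_eq_prod_lintegral_of_indepFun (μ := Measure.infinitePi P) s
    (fun i (w : (i : ι) → Ω i) => h i (w i))
    (iIndepFun_infinitePi hh) (fun i => (hh i).comp (measurable_pi_apply i))
  rw [h1]
  refine Finset.prod_congr rfl fun i _ => ?_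
  conv_rhs => rw [← Measure.infinitePi_map_eval P i]
  rw [lintegral_map (hh i) (measurable_pi_apply i)]

theorem lint_poisson {ν : ℝ} (hν : 0 < ν) {a : ℝ} (ha : 0 ≤ a) :
    ∫⁻ n : ℕ, ENNReal.ofReal a ^ n ∂(poissonMeasure ν.toNNReal) =
      ENNReal.ofReal (Real.exp (-(ν * (1 - a)))) := by
  rw [lintegral_countable']
  have h1 : ∀ n : ℕ, ENNReal.ofReal a ^ n * poissonMeasure ν.toNNReal {n} =
      ENNReal.ofReal (Real.exp (-ν) * ((ν * a) ^ n / n.factorial)) := by
    intro n
    rw [poissonMeasure_singleton, ← ENNReal.ofReal_pow ha, ← ENNReal.ofReal_mul (by positivity),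
      Real.coe_toNNReal _ hν.le]
    congr 1
    rw [mul_pow]
    ring
  simp_rw [h1]
  rw [← ENNReal.ofReal_tsum_of_nonneg (fun n => by positivity)
    ((Real.summable_pow_div_factorial _).mul_left _), tsum_mul_left]
  congr 1
  have h2 : ∑' n : ℕ, (ν * a) ^ n / n.factorial = Real.exp (ν * a) := by
    rw [Real.exp_eq_exp_ℝ, NormedSpace.exp_eq_tsum_div]
  rw [h2, ← Real.exp_add]
  congr 1
  ring

/-- Mean weight of a trap started at `y`. -/
noncomputable def mm (ρ γ t : ℝ) (x : ℝ → Fin d → ℤ) (y : Fin d → ℤ) : ℝ :=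
  ∫ w, Real.exp (-(γ * occ x y w t)) ∂(walkLaw d ρ t)

theorem lint_g [NeZero d] {ρ γ t : ℝ} (hρ : 0 < ρ) (hγ : 0 < γ) (ht : 0 < t)
    (x : ℝ → Fin d → ℤ) (hx : Measurable x) (y : Fin d → ℤ) :
    ∫⁻ w, g γ t x y w ∂(walkLaw d ρ t) = ENNReal.ofReal (mm ρ γ t x y) := by
  have := walkLaw_prob d hρ.le ht
  have hm := meas_occ ht x hx y
  unfold mm g
  rw [ofReal_integral_eq_lintegral_ofReal]
  · refine Integrable.of_bound (by fun_prop) 1 (ae_of_all _ fun w => ?_)
    rw [Real.norm_eq_abs, abs_of_pos (Real.exp_pos _), Real.exp_le_one_iff]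
    have := mul_nonneg hγ.le (occ_nonneg ht x y w)
    linarith
  · exact ae_of_all _ fun w => (Real.exp_pos _).le

theorem lint_pp [NeZero d] {ν ρ γ t : ℝ} (hν : 0 < ν) (hρ : 0 < ρ) (hγ : 0 < γ) (ht : 0 < t)
    (x : ℝ → Fin d → ℤ) (hx : Measurable x) (F : Finset (Fin d → ℤ)) :
    ∫⁻ c, pp γ t x F c ∂(trapLaw d ν ρ t) =
      ENNReal.ofReal (Real.exp (-(ν * ∑ y ∈ F, (1 - mm ρ γ t x y)))) := by
  have := walkLaw_prob d hρ.le ht
  unfold trapLaw
  rw [lintegral_prod _ (meas_pp ht x hx F).aemeasurable]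
  have h1 : ∀ n : (Fin d → ℤ) → ℕ,
      ∫⁻ w, pp γ t x F (n, w) ∂(Measure.infinitePi fun _ : (Fin d → ℤ) × ℕ => walkLaw d ρ t) =
        ∏ y ∈ F, ENNReal.ofReal (mm ρ γ t x y) ^ n y := by
    intro n
    have h2 : ∀ w : (Fin d → ℤ) × ℕ → Traj d, pp γ t x F (n, w) =
        ∏ p ∈ (F.sigma fun y => Finset.range (n y)).map
          (Equiv.sigmaEquivProd (Fin d → ℤ) ℕ).toEmbedding, g γ t x p.1 (w p) := by
      intro w
      rw [Finset.prod_map, Finset.prod_sigma]
      rfl
    simp_rw [h2]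
    rw [lint_prod (fun _ : (Fin d → ℤ) × ℕ => walkLaw d ρ t) (fun p => g γ t x p.1)
      (fun p => meas_g ht x hx p.1), Finset.prod_map, Finset.prod_sigma]
    refine Finset.prod_congr rfl fun y _ => ?_
    simp only [Equiv.coe_toEmbedding, Equiv.sigmaEquivProd_apply]
    rw [Finset.prod_const, Finset.card_range, lint_g hρ hγ ht x hx]
  simp_rw [h1]
  rw [lint_prod (fun _ : Fin d → ℤ => poissonMeasure ν.toNNReal)
    (fun y n => ENNReal.ofReal (mm ρ γ t x y) ^ n) (fun y => measurable_from_nat)]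
  have h3 : ∀ y, 0 ≤ mm ρ γ t x y := fun y => integral_nonneg fun w => (Real.exp_pos _).le
  simp_rw [fun y => lint_poisson hν (h3 y)]
  rw [← ENNReal.ofReal_prod_of_nonneg fun y _ => (Real.exp_pos _).le, ← Real.exp_sum,
    Finset.mul_sum, Finset.sum_neg_distrib]

/-- The total occupation time is `t`. -/
theorem tsum_occ {t : ℝ} (ht : 0 < t) (x : ℝ → Fin d → ℤ) (hx : Measurable x) (w : Traj d) :
    ∑' y : Fin d → ℤ, ENNReal.ofReal (occ x y w t) = ENNReal.ofReal t := by
  simp_rw [← lint_ind ht x hx]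
  rw [← lintegral_tsum]
  · have h : ∀ s : ℝ, ∑' y : Fin d → ℤ, (if y + pos w s = x s then (1 : ℝ≥0∞) else 0) = 1 := by
      intro s
      rw [tsum_eq_single (x s - pos w s)]
      · rw [if_pos (sub_add_cancel _ _)]
      · intro y hy
        rw [if_neg]
        intro h
        exact hy (eq_sub_of_add_eq h)
    simp_rw [h]
    simp
  · exact fun y => ((meas_ind x hx y).comp (measurable_const.prodMk measurable_id)).aemeasurable

theorem summable_mm [NeZero d] {ρ γ t : ℝ} (hρ : 0 < ρ) (hγ : 0 < γ) (ht : 0 < t)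
    (x : ℝ → Fin d → ℤ) (hx : Measurable x) : Summable fun y => 1 - mm ρ γ t x y := by
  have hP := walkLaw_prob d hρ.le ht
  have hm := meas_occ ht x hx
  have hint : ∀ y, Integrable (fun w => Real.exp (-(γ * occ x y w t))) (walkLaw d ρ t) := by
    intro y
    have := hm y
    refine Integrable.of_bound (by fun_prop) 1 (ae_of_all _ fun w => ?_)
    rw [Real.norm_eq_abs, abs_of_pos (Real.exp_pos _), Real.exp_le_one_iff]
    have := mul_nonneg hγ.le (occ_nonneg ht x y w)
    linarith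
  have h1 : ∀ y, 1 - mm ρ γ t x y = ∫ w, (1 - Real.exp (-(γ * occ x y w t))) ∂(walkLaw d ρ t) := by
    intro y
    rw [integral_sub (integrable_const _) (hint y)]
    simp [mm]
  have h0 : ∀ y w, 0 ≤ 1 - Real.exp (-(γ * occ x y w t)) := by
    intro y w
    have h2 : Real.exp (-(γ * occ x y w t)) ≤ 1 := by
      rw [Real.exp_le_one_iff]
      have := mul_nonneg hγ.le (occ_nonneg ht x y w)
      linarith
    linarith
  have h2 : ∀ y, ENNReal.ofReal (1 - mm ρ γ t x y) ≤
      ENNReal.ofReal γ * ∫⁻ w, ENNReal.ofReal (occ x y w t) ∂(walkLaw d ρ t) := by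
    intro y
    have h6 := ofReal_integral_eq_lintegral_ofReal (μ := walkLaw d ρ t)
      (f := fun w => 1 - Real.exp (-(γ * occ x y w t))) ((integrable_const _).sub (hint y))
      (ae_of_all _ (h0 y))
    rw [h1, h6, ← lintegral_const_mul _ (meas_ofReal_occ ht x hx y)]
    refine lintegral_mono fun w => ?_
    rw [← ENNReal.ofReal_mul hγ.le]
    refine ENNReal.ofReal_le_ofReal ?_
    have := Real.add_one_le_exp (-(γ * occ x y w t))
    linarith
  have h3 : ∑' y, ENNReal.ofReal (1 - mm ρ γ t x y) ≤ ENNReal.ofReal γ * ENNReal.ofReal t := by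
    refine (ENNReal.tsum_le_tsum h2).trans ?_
    rw [ENNReal.tsum_mul_left, ← lintegral_tsum fun y => (meas_ofReal_occ ht x hx y).aemeasurable]
    simp_rw [tsum_occ ht x hx]
    simp
  have h4 : ∑' y, ENNReal.ofReal (1 - mm ρ γ t x y) ≠ ∞ :=
    ne_top_of_le_ne_top (ENNReal.mul_ne_top ENNReal.ofReal_ne_top ENNReal.ofReal_ne_top) h3
  have h5 := ENNReal.summable_toReal h4
  refine h5.congr fun y => ?_
  rw [ENNReal.toReal_ofReal]
  rw [h1]
  exact integral_nonneg (h0 y)

end C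

open C in
theorem survAv_eq {d : ℕ} [NeZero d] {ν ρ γ t : ℝ} (hν : 0 < ν) (hρ : 0 < ρ) (hγ : 0 < γ)
    (ht : 0 < t) (x : ℝ → Fin d → ℤ) (hx : Measurable x) :
    survAv ν ρ γ t x = ENNReal.ofReal (Real.exp (-(ν * Nt ρ γ t x))) := by
  have hP := walkLaw_prob d hρ.le ht
  have hT : IsProbabilityMeasure (trapLaw d ν ρ t) := by
    unfold trapLaw
    infer_instance
  have h1 : Tendsto (fun F : Finset (Fin d → ℤ) => ∫⁻ c, pp γ t x F c ∂(trapLaw d ν ρ t)) atTop
      (𝓝 (survAv ν ρ γ t x)) := by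
    unfold survAv
    refine tendsto_lintegral_filter_of_dominated_convergence (fun _ => 1)
      (Eventually.of_forall fun F => meas_pp ht x hx F)
      (Eventually.of_forall fun F => ae_of_all _ fun c => pp_le_one hγ ht x F c) ?_
      (ae_of_all _ fun c => tendsto_pp hγ ht x hx c)
    simp
  have h2 : Tendsto (fun F : Finset (Fin d → ℤ) => ∫⁻ c, pp γ t x F c ∂(trapLaw d ν ρ t)) atTop
      (𝓝 (ENNReal.ofReal (Real.exp (-(ν * Nt ρ γ t x))))) := by
    simp_rw [lint_pp hν hρ hγ ht x hx]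
    refine ENNReal.tendsto_ofReal ((Real.continuous_exp.tendsto _).comp ?_)
    exact ((summable_mm hρ hγ ht x hx).hasSum.const_mul ν).neg
  exact tendsto_nhds_unique h1 h2

end Pool.Agent.H99.Trap
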